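import Pool.Agent.helper84.LQ.SpecH

/-!
# Project LQ (MP_07c750_an), row lq:LGQ: the leaf inequality with windows at all scales
-/

open scoped MatrixGroups ContDiff Topology UpperHalfPlane ComplexConjugate
open UpperHalfPlane MeasureTheory Filter Set

set_option autoImplicit false

namespace Pool.Agent.LP

open Pool.Agent.RS
open Pool.Agent.MS (bq BB BA SF pf)
open Pool.Agent.HV (FW)
open Pool.Agent.EN (XG MG mkX mkM fl pr)
open Pool.Agent.ER (Low LowJ)

noncomputable section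

theorem LGQ_ee_add (s t : ℝ) : ee (s + t) = ee s * ee t := by
  unfold ee
  rw [← Complex.exp_add]
  congr 1
  push_cast
  ring

theorem LGQ_ee_norm (s : ℝ) : ‖ee s‖ = 1 := by
  unfold ee
  exact Complex.norm_exp_ofReal_mul_I s

/-- the substitution `v = v0 + q V` -/
theorem LGQ_sub (f : ℝ → ℝ) (v0 q : ℝ) (hq : 0 < q) (E : Set ℝ) (hE : MeasurableSet E) :
    ∫ v in E, f v = q * ∫ V in (fun V : ℝ => v0 + q * V) ⁻¹' E, f (v0 + q * V) := by
  have hm : Measurable (fun V : ℝ => v0 + q * V) := by fun_prop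
  rw [← integral_indicator hE, ← integral_indicator (hm hE)]
  have h1 : ((fun V : ℝ => v0 + q * V) ⁻¹' E).indicator (fun V => f (v0 + q * V)) = fun V => E.indicator f (v0 + q * V) := by
    ext V
    by_cases h : v0 + q * V ∈ E
    · rw [indicator_of_mem h, indicator_of_mem (show V ∈ (fun V : ℝ => v0 + q * V) ⁻¹' E from h)]
    · rw [indicator_of_notMem h, indicator_of_notMem (show V ∉ (fun V : ℝ => v0 + q * V) ⁻¹' E from h)]
  rw [h1]
  have h2 := Measure.integral_comp_mul_left (fun y => E.indicator f (v0 + y)) q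
  have h3 : ∫ y, E.indicator f (v0 + y) = ∫ y, E.indicator f y := integral_add_left_eq_self (E.indicator f) v0
  rw [h3, abs_of_pos (inv_pos.2 hq), smul_eq_mul] at h2
  rw [h2, ← mul_assoc, mul_inv_cancel₀ hq.ne', one_mul]

theorem LGQ_N (G m : ℕ) : Real.exp (G * m) ≤ (nG G m : ℝ) ∧ (nG G m : ℝ) ≤ 2 * Real.exp (G * m) := by
  have h1 : (1 : ℝ) ≤ Real.exp (G * m) := Real.one_le_exp (by positivity)
  refine ⟨Nat.le_ceil _, ?_⟩
  have h2 := (Nat.ceil_lt_add_one (Real.exp_pos ((G : ℝ) * m)).le).le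
  unfold nG
  linarith

theorem LGQ_H (G m : ℕ) (hG2 : 2 ≤ G) (hm : 1 ≤ m) : 1 ≤ hG G m ∧ 2 * (hG G m : ℝ) ≤ Real.exp (((G : ℝ) - 1) * m) ∧
    Real.exp (((G : ℝ) - 1) * m) ≤ 4 * (hG G m : ℝ) := by
  have h1 : (2 : ℝ) ≤ Real.exp (((G : ℝ) - 1) * m) := by
    have h2 : (1 : ℝ) ≤ ((G : ℝ) - 1) * m := by
      have h3 : (2 : ℝ) ≤ G := by exact_mod_cast hG2
      have h4 : (1 : ℝ) ≤ m := by exact_mod_cast hm
      nlinarith
    have h5 := Real.add_one_le_exp (((G : ℝ) - 1) * m)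
    linarith
  have h6 : 1 ≤ hG G m := by
    unfold hG
    rw [Nat.one_le_floor_iff]
    linarith
  have h7 : (hG G m : ℝ) ≤ Real.exp (((G : ℝ) - 1) * m) / 2 := Nat.floor_le (by positivity)
  have h8 : Real.exp (((G : ℝ) - 1) * m) / 2 < (hG G m : ℝ) + 1 := Nat.lt_floor_add_one _
  have h9 : (1 : ℝ) ≤ (hG G m : ℝ) := by exact_mod_cast h6
  exact ⟨h6, by linarith, by linarith⟩

/-- the product of the matrices -/
theorem LGQ_mat (hGLC : RS.GLC_stmt) (g : SL(2, ℝ)) (v0 V q t s r : ℝ) (hq : Real.exp t * q = 1) (hr : r = t + s) :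
    g * lM v0 * aM t * lM V * aM s = g * lM (v0 + q * V) * aM r := by
  obtain ⟨-, -, -, -, -, -, -, -, -, -, haa, -, hll, -, -, -, -, -, hla, -⟩ := hGLC
  have h1 : lM (q * V) * aM t = aM t * lM V := by
    rw [hla, ← mul_assoc, hq, one_mul]
  rw [hr, haa, hll]
  calc g * lM v0 * aM t * lM V * aM s = g * lM v0 * (aM t * lM V) * aM s := by group
    _ = g * lM v0 * (lM (q * V) * aM t) * aM s := by rw [h1]
    _ = g * (lM v0 * lM (q * V)) * (aM t * aM s) := by group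

theorem LGQ_back (hGLC : RS.GLC_stmt) (g : SL(2, ℝ)) (t : ℝ) : g * aM t * aM (-t) = g := by
  obtain ⟨-, -, -, -, -, -, -, -, -, -, haa, -⟩ := hGLC
  have h1 : aM 0 = 1 := by
    ext i j
    fin_cases i <;> fin_cases j <;> simp [aM]
  rw [mul_assoc, ← haa, add_neg_cancel, h1, mul_one]

/-- the numbers `lam`, `lam/d0²` -/
theorem LGQ_lam (N E q d0 : ℝ) (hE : 0 < E) (hN : E ≤ N) (hN2 : N ≤ 2 * E) (hq : E * q = 1) (hd : |d0 - 1| ≤ 1 / 1000) :
    1 ≤ Real.pi * N * q / 2 ∧ Real.pi * N * q / 2 ≤ 4 ∧ 1 ≤ Real.pi * N * q / 2 / d0 ^ 2 ∧ Real.pi * N * q / 2 / d0 ^ 2 ≤ 4 := by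
  have hq0 : 0 < q := by
    by_contra hcon
    push Not at hcon
    have := mul_nonpos_of_nonneg_of_nonpos hE.le hcon
    linarith
  have h1 : 1 ≤ N * q := by
    rw [← hq]
    exact mul_le_mul_of_nonneg_right hN hq0.le
  have h2 : N * q ≤ 2 := by
    have := mul_le_mul_of_nonneg_right hN2 hq0.le
    rw [mul_assoc, hq] at this
    linarith
  have hpi := Real.pi_gt_three
  have hpi2 := Real.pi_lt_d2
  have e1 : Real.pi * N * q / 2 = Real.pi / 2 * (N * q) := by ring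
  have h3 : (3 : ℝ) / 2 ≤ Real.pi * N * q / 2 := by
    rw [e1]
    nlinarith
  have h4 : Real.pi * N * q / 2 ≤ 315 / 100 := by
    rw [e1]
    nlinarith
  have hd' := abs_le.1 hd
  have h5 : (99 / 100 : ℝ) ≤ d0 ^ 2 := by nlinarith
  have h6 : d0 ^ 2 ≤ (101 / 100 : ℝ) := by nlinarith
  have h7 : 0 < d0 ^ 2 := by linarith
  refine ⟨by linarith, by linarith, ?_, ?_⟩
  · rw [le_div_iff₀ h7]
    linarith
  · rw [div_le_iff₀ h7]
    linarith

theorem LGQ_proof (hBAQ : BAQ_stmt) (hMVQ : MVQ_stmt) (hMO2 : MO2_stmt) (hLCL : LCL_stmt) (hSBA : SBA_stmt) (hUZQ : UZQ_stmt)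
    (hGLC : RS.GLC_stmt) : LGQ_stmt := by
  intro Γ hΓ C1 a η h β b G hC1 ha ha2 hη hh hhη hah h3a hG2 hb hb1 hβ
  obtain ⟨CU, hCU, hUZ⟩ := hUZQ Γ hΓ
  obtain ⟨CL, hCL, hL⟩ := hLCL
  obtain ⟨C0, hC0, hS⟩ := hSBA
  obtain ⟨m0, hB⟩ := hBAQ Γ hΓ C1 a η h β b G hC1 ha ha2 hη hh hhη hah h3a hG2 hb hb1 hβ
  refine ⟨C0 * (2 * CL * CU), max m0 1, ?_, ?_⟩
  · have h1 : 1 ≤ CL * CU := one_le_mul_of_one_le_of_one_le hCL hCU
    have h2 : 1 ≤ 2 * CL * CU := by
      rw [mul_assoc]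
      linarith
    exact one_le_mul_of_one_le_of_one_le hC0 h2
  intro m A hm hA
  have hm0 : m0 ≤ m := (le_max_left _ _).trans hm
  have hm1 : 1 ≤ m := (le_max_right _ _).trans hm
  obtain ⟨Ab, hAb, hgood⟩ := hB m A hm0 hA
  refine ⟨Ab, hAb, ?_⟩
  intro g Y J c hY hY01 hYp hAR
  obtain ⟨hN1, hN2⟩ := LGQ_N G m
  obtain ⟨hH1, hH2, hH3⟩ := LGQ_H G m hG2 hm1
  have hEp : (1 : ℝ) ≤ Real.exp (G * m) := Real.one_le_exp (by positivity)
  have hNpos : (0 : ℝ) < nG G m := by linarith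
  have hN1nat : 1 ≤ nG G m := by
    have h1 : (1 : ℝ) ≤ nG G m := hEp.trans hN1
    exact_mod_cast h1
  have hHr : (1 : ℝ) ≤ (hG G m : ℝ) := by exact_mod_cast hH1
  obtain ⟨Q, hQ⟩ : ∃ Q : ℝ, Q = 2 * CL * CU * (Real.exp ((h + η - 1) * m) + Real.exp (-m)) := ⟨_, rfl⟩
  have hQ0 : 0 ≤ Q := by
    rw [hQ]
    positivity
  have hloc : ∀ (k : ℕ) (b' : ℤ → ℂ), k < nG G m → ∫ v in Y ∩ Icc ((k : ℝ) / nG G m) (((k : ℝ) + 1) / nG G m),
      ‖∑ d ∈ DJ G m J, b' d * ee (Real.pi * nG G m * d * v / 2)‖ ^ 2 ≤ Q / nG G m * ∑ d ∈ DJ G m J, ‖b' d‖ ^ 2 := by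
    intro k b' _
    obtain ⟨E, hE⟩ : ∃ E : Set ℝ, E = Y ∩ Icc ((k : ℝ) / nG G m) (((k : ℝ) + 1) / nG G m) := ⟨_, rfl⟩
    rw [← hE]
    have hRHS : 0 ≤ Q / nG G m * ∑ d ∈ DJ G m J, ‖b' d‖ ^ 2 := by positivity
    rcases E.eq_empty_or_nonempty with h0 | ⟨v0, hv0⟩
    · rw [h0]
      simpa using hRHS
    have hEm : MeasurableSet E := by
      rw [hE]
      exact hY.inter measurableSet_Icc
    rw [hE] at hv0
    obtain ⟨hnb, hwin⟩ := hYp v0 hv0.1
    have hback : g * lM v0 * aM (G * m) * aM (-(G * m)) = g * lM v0 := LGQ_back hGLC _ _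
    obtain ⟨z, γ, w, τ, x, hw, hτ, hx, hγ, hGD⟩ := hgood (g * lM v0 * aM (G * m)) (by rw [hback]; exact hnb)
      (fun j hj hj' => by rw [hback]; exact (hwin j hj hj').1)
    obtain ⟨hd1, hX, hA1, -⟩ := hMO2 (b / 1000) w τ x 0 (by positivity) (by linarith) hw hτ hx (by simp)
    obtain ⟨q, hq⟩ : ∃ q : ℝ, q = Real.exp (-((G : ℝ) * m)) := ⟨_, rfl⟩
    have hqpos : 0 < q := by
      rw [hq]
      exact Real.exp_pos _
    have hqE : Real.exp (G * m) * q = 1 := by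
      rw [hq, ← Real.exp_add, add_neg_cancel, Real.exp_zero]
    have hNq : 1 / (nG G m : ℝ) ≤ q := by
      rw [div_le_iff₀ hNpos, ← hqE, mul_comm]
      exact mul_le_mul_of_nonneg_left hN1 hqpos.le
    have hqN : q ≤ 2 / (nG G m : ℝ) := by
      rw [le_div_iff₀ hNpos]
      calc q * nG G m ≤ q * (2 * Real.exp (G * m)) := mul_le_mul_of_nonneg_left hN2 hqpos.le
        _ = 2 * (Real.exp (G * m) * q) := by ring
        _ = 2 := by rw [hqE, mul_one]
    obtain ⟨hl1, hl2, hl3, hl4⟩ := LGQ_lam (nG G m) (Real.exp (G * m)) q (dX w τ x) (Real.exp_pos _) hN1 hN2 hqE (hd1.trans (by linarith))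
    obtain ⟨lam, hlam⟩ : ∃ lam : ℝ, lam = Real.pi * nG G m * q / 2 := ⟨_, rfl⟩
    rw [← hlam] at hl1 hl2 hl3 hl4
    have hmeas : Measurable (fun V : ℝ => v0 + q * V) := by fun_prop
    have hVm : MeasurableSet ((fun V : ℝ => v0 + q * V) ⁻¹' E) := hmeas hEm
    have hVsub : ((fun V : ℝ => v0 + q * V) ⁻¹' E) ⊆
        (fun u : ℝ => -(w * Real.exp (τ / 2) / dX w τ x) + mm (sX w τ x) u / dX w τ x ^ 2) '' (UW Γ A (64 * b) G m z) := by
      intro V hV
      have hVE : v0 + q * V ∈ E := hV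
      rw [hE] at hVE
      have hVabs : |V| ≤ 1 := by
        have h1 : |q * V| ≤ q := by
          refine le_trans ?_ hNq
          have h2 := hVE.2
          have h3 := hv0.2
          have h4 : ((k : ℝ) + 1) / nG G m = (k : ℝ) / nG G m + 1 / nG G m := add_div _ _ _
          rw [h4] at h2 h3
          rw [abs_le]
          constructor
          · linarith [h2.1, h3.2]
          · linarith [h2.2, h3.1]
        rw [abs_mul, abs_of_pos hqpos] at h1
        exact le_of_mul_le_mul_left (by rw [mul_one]; exact h1) hqpos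
      obtain ⟨u, hu, huV⟩ := hMVQ Γ (16 * b) w τ x V G m A (g * lM v0 * aM (G * m)) z γ (by positivity) (by linarith)
        (hw.trans (by linarith)) (hτ.trans (by linarith)) (hx.trans (by linarith)) hVabs hγ (fun j hj hj' => by
          rw [LGQ_mat hGLC g v0 V q (G * m) (((G : ℝ) - j) * m) ((2 * (G : ℝ) - j) * m) hqE (by ring)]
          exact ((hYp (v0 + q * V) hVE.1).2 j hj hj').2)
      have h64 : (4 * (16 * b) : ℝ) = 64 * b := by ring
      rw [h64] at hu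
      exact ⟨u, hu, huV.symm⟩
    obtain ⟨hUm, hU2, hUd⟩ := hUZ (64 * b) G m A z (by positivity) (by linarith)
    have hdens := hUd 1 le_rfl (by omega)
    have hθ : ∀ y : ℝ, volume.real (UW Γ A (64 * b) G m z ∩ Icc y (y + 1 / ((2 * hG G m : ℕ) : ℝ))) ≤
        (2 * (hG G m : ℝ) * (CU * (A 1).card * Real.exp (-(G * m)))) / ((2 * hG G m : ℕ) : ℝ) := by
      intro y
      have e1 : ((2 * hG G m : ℕ) : ℝ) = 2 * (hG G m : ℝ) := by push_cast; rfl
      rw [e1, mul_div_assoc, mul_div_cancel₀ _ (by positivity)]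
      refine le_trans (measureReal_mono (inter_subset_inter_right _ (Icc_subset_Icc_right ?_)) ?_) (hdens y)
      · have h1 : 1 / (2 * (hG G m : ℝ)) ≤ 3 * Real.exp (-(((G : ℝ) - (1 : ℕ)) * m)) := by
          rw [div_le_iff₀ (by positivity), Nat.cast_one]
          have h2 : Real.exp (-(((G : ℝ) - 1) * m)) * Real.exp (((G : ℝ) - 1) * m) = 1 := by
            rw [← Real.exp_add, neg_add_cancel, Real.exp_zero]
          have h3 : 0 < Real.exp (-(((G : ℝ) - 1) * m)) := Real.exp_pos _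
          nlinarith
        linarith
      · exact ((measure_mono inter_subset_right).trans_lt (by rw [Real.volume_Icc]; exact ENNReal.ofReal_lt_top)).ne
    have hθ2 : 2 * (hG G m : ℝ) * (CU * (A 1).card * Real.exp (-(G * m))) ≤ CU * Real.exp ((h + η - 1) * m) := by
      have h1 := hA 1 le_rfl (by omega)
      calc 2 * (hG G m : ℝ) * (CU * (A 1).card * Real.exp (-(G * m)))
          ≤ Real.exp (((G : ℝ) - 1) * m) * (CU * Real.exp ((h + η) * ((1 : ℕ) * m)) * Real.exp (-(G * m))) := by gcongr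
        _ = CU * (Real.exp (((G : ℝ) - 1) * m) * Real.exp ((h + η) * ((1 : ℕ) * m)) * Real.exp (-(G * m))) := by ring
        _ = CU * Real.exp ((h + η - 1) * m) := by
            rw [← Real.exp_add, ← Real.exp_add]
            congr 2
            push_cast
            ring
    have hfin := hL (hG G m) (2 * (hG G m : ℝ) * (CU * (A 1).card * Real.exp (-(G * m)))) lam (Real.exp (-m)) (sX w τ x) (dX w τ x)
      (-(w * Real.exp (τ / 2) / dX w τ x)) (UW Γ A (64 * b) G m z) ((fun V : ℝ => v0 + q * V) ⁻¹' E) (DJ G m J) hH1 hl1 hl2 hUm hU2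
      (hX.trans (by linarith)) (hd1.trans (by linarith)) (by rw [abs_neg]; exact hA1.trans (by linarith)) hθ hVm hVsub (Real.exp_pos _).le
      (hGD (DJ G m J) (lam / dX w τ x ^ 2) hAR hl3 hl4) (fun d => b' d * ee (Real.pi * nG G m * d * v0 / 2))
    have hnorm : ∑ d ∈ DJ G m J, ‖b' d * ee (Real.pi * nG G m * d * v0 / 2)‖ ^ 2 = ∑ d ∈ DJ G m J, ‖b' d‖ ^ 2 := by
      refine Finset.sum_congr rfl fun d _ => ?_
      rw [norm_mul, LGQ_ee_norm, mul_one]
    rw [hnorm] at hfin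
    have hphase : ∀ V : ℝ, ‖∑ d ∈ DJ G m J, b' d * ee (Real.pi * nG G m * d * (v0 + q * V) / 2)‖ ^ 2 =
        ‖∑ d ∈ DJ G m J, b' d * ee (Real.pi * nG G m * d * v0 / 2) * ee (lam * d * V)‖ ^ 2 := by
      intro V
      congr 2
      refine Finset.sum_congr rfl fun d _ => ?_
      rw [mul_assoc (b' d), ← LGQ_ee_add, hlam]
      congr 2
      ring
    rw [LGQ_sub (fun v => ‖∑ d ∈ DJ G m J, b' d * ee (Real.pi * nG G m * d * v / 2)‖ ^ 2) v0 q hqpos E hEm]
    simp only [hphase]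
    have hsum0 : 0 ≤ ∑ d ∈ DJ G m J, ‖b' d‖ ^ 2 := Finset.sum_nonneg fun d _ => by positivity
    have hCL0 : 0 ≤ CL := by linarith
    have hCU0 : 0 ≤ CU := by linarith
    calc q * ∫ V in (fun V : ℝ => v0 + q * V) ⁻¹' E, ‖∑ d ∈ DJ G m J, b' d * ee (Real.pi * nG G m * d * v0 / 2) * ee (lam * d * V)‖ ^ 2
        ≤ 2 / nG G m * (CL * (CU * Real.exp ((h + η - 1) * m) + CU * Real.exp (-m)) * ∑ d ∈ DJ G m J, ‖b' d‖ ^ 2) := by
          refine mul_le_mul hqN (hfin.trans ?_) (integral_nonneg fun V => by positivity) (by positivity)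
          refine mul_le_mul_of_nonneg_right (mul_le_mul_of_nonneg_left (add_le_add hθ2 ?_) hCL0) hsum0
          exact le_mul_of_one_le_left (Real.exp_pos _).le hCU
      _ = Q / nG G m * ∑ d ∈ DJ G m J, ‖b' d‖ ^ 2 := by
          rw [hQ]
          ring
  refine (hS (nG G m) Y J Q hN1nat hY hY01 hQ0 hloc c).trans (le_of_eq ?_)
  rw [hQ]
  ring

end

end Pool.Agent.LP
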