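import Pool.Agent.helper57.LQ.SpecA

set_option autoImplicit false

open Finset PowerSeries

noncomputable section

namespace Pool.Agent.LQ

theorem PSV_T1 (m : ℕ) (f : FF) : coeff 1 (T m f) = coeff m f := by
  rw [coeff_T]
  simp

theorem PSV_mem {N n : ℕ} (hn : n.Coprime N) : T n ∈ TT N :=
  Submodule.subset_span ⟨n, hn, rfl⟩

theorem PSV_sup {N : ℕ} {g : FF} (hg : Gen N g) (K : ℕ) (f : FF) (hf : f ∈ VV N g K) (n : ℕ)
    (hn : ¬ n.Coprime N) : coeff n f = 0 := by
  refine Submodule.span_induction ?_ ?_ ?_ ?_ hf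
  · rintro x ⟨i, hi, hiN, rfl⟩
    by_contra h
    exact hn (hg.sup i hiN n h)
  · exact map_zero _
  · intro x y _ _ hx hy
    rw [map_add, hx, hy, add_zero]
  · intro a x _ hx
    rw [map_smul, hx, smul_zero]

theorem PSV (hAF1 : AF1_stmt) (hAF2 : AF2_stmt) (hAF3 : AF3_stmt) (hFUN : FUN_stmt) : PSV_stmt := by
  intro N g hg K f hf
  obtain ⟨hF1, hF2, hF3, -, -⟩ := hFUN N g hg
  obtain ⟨h, hh, hhc⟩ := hF2 K (fun n => coeff n (Psi N f))
  have key : Psi N f = h := by
    ext n
    by_cases hn : n.Coprime N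
    · rcases Nat.lt_or_ge n K with hnK | hnK
      · exact (hhc n hnK hn).symm
      · obtain ⟨S, hS, hSf⟩ := hF3 K (PowerSeries.coeff n)
        have hev : ∀ x : FF, coeff 1 ((T n + ∑ m ∈ S, T m) x) = coeff n x + ∑ m ∈ S, coeff m x := by
          intro x
          rw [LinearMap.add_apply, map_add, PSV_T1, LinearMap.sum_apply, map_sum]
          congr 1
          exact Finset.sum_congr rfl fun m _ => PSV_T1 m x
        have hBmem : T n + ∑ m ∈ S, T m ∈ TT N :=
          Submodule.add_mem _ (PSV_mem hn) (Submodule.sum_mem _ fun m hm => PSV_mem (hS m hm).2)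
        have hB0 : ∀ f' ∈ VV N g K, (T n + ∑ m ∈ S, T m) f' = 0 := by
          intro f' hf'
          refine hF1 K _ (hAF3.2 N g hg _ hBmem K f' hf') ?_
          intro k _ hk
          rw [hAF1 N hg.one_lt _ hBmem f' k hk, hev,
            ← hSf (T k f') (hAF3.2 N g hg _ (PSV_mem hk) K f' hf')]
          exact CharTwo.add_self_eq_zero _
        have h1 := hAF2 N hg.one_lt _ hBmem f
        rw [hB0 f hf, map_zero, map_zero, hev] at h1
        have h2 : ∑ m ∈ S, coeff m (Psi N f) = coeff n h := by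
          rw [hSf h hh]
          exact Finset.sum_congr rfl fun m hm => (hhc m (hS m hm).1 (hS m hm).2).symm
        rw [h2] at h1
        exact (CharTwo.add_eq_zero.1 h1.symm)
    · rw [PSV_sup hg K h hh n hn, coeff_Psi, if_neg hn]
  rw [key]
  exact hh

end Pool.Agent.LQ
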